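import Pool.Agent.Cov.PNT

/-!
# Asymptotics of two sums over primes
-/

set_option autoImplicit false

namespace Pool.Agent.T6.H82.HC

open Filter Topology MeasureTheory

theorem pi_integrable {a b : ℝ} (ha : 0 < a) (hab : a ≤ b) :
    IntervalIntegrable (fun t : ℝ => (Nat.primeCounting ⌊t⌋₊ : ℝ) / t) volume a b := by
  have hmono : Monotone (fun t : ℝ => (Nat.primeCounting ⌊t⌋₊ : ℝ)) := by
    intro s t hst
    show (Nat.primeCounting ⌊s⌋₊ : ℝ) ≤ (Nat.primeCounting ⌊t⌋₊ : ℝ)
    exact_mod_cast Nat.monotone_primeCounting (Nat.floor_mono hst)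
  have h1 : IntervalIntegrable (fun t : ℝ => (Nat.primeCounting ⌊t⌋₊ : ℝ)) volume a b :=
    hmono.intervalIntegrable
  have h2 : ContinuousOn (fun t : ℝ => t⁻¹) (Set.uIcc a b) := by
    rw [Set.uIcc_of_le hab]
    refine ContinuousOn.inv₀ continuousOn_id fun t ht => ?_
    have := ht.1
    show t ≠ 0
    linarith
  exact h1.mul_continuousOn h2

/-- the sum of `(l - log (x / p))₊` over the primes `p ≤ x` -/
theorem sum_pos_part {l x : ℝ} (hl : 0 ≤ l) (hx : 2 * Real.exp l ≤ x) :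
    ∑ p ∈ Nat.primesLE ⌊x⌋₊, max (l - (Real.log x - Real.log p)) 0 =
      (Nat.primeCounting ⌊x⌋₊ : ℝ) * l -
        ∫ t in (Real.exp (-l) * x)..x, (Nat.primeCounting ⌊t⌋₊ : ℝ) / t := by
  have he : 1 ≤ Real.exp l := Real.one_le_exp hl
  have hx2 : 2 ≤ x := by linarith
  have hx0 : 0 < x := by linarith
  set s : ℝ := Real.exp (-l) * x with hs
  have hs2 : 2 ≤ s := by
    have h1 : Real.exp (-l) * (2 * Real.exp l) ≤ Real.exp (-l) * x := by gcongr
    have h2 : Real.exp (-l) * (2 * Real.exp l) = 2 := by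
      rw [mul_left_comm, ← Real.exp_add]
      simp
    linarith
  have hs0 : 0 < s := by linarith
  have hsx : s ≤ x := by
    have h1 : Real.exp (-l) ≤ 1 := Real.exp_le_one_iff.mpr (by linarith)
    nlinarith
  have hlogs : Real.log s = Real.log x - l := by
    rw [hs, Real.log_mul (Real.exp_pos _).ne' hx0.ne', Real.log_exp]
    ring
  have hsub : Nat.primesLE ⌊s⌋₊ ⊆ Nat.primesLE ⌊x⌋₊ := by
    intro p hp
    rw [Nat.mem_primesLE] at hp ⊢
    exact ⟨hp.1.trans (Nat.floor_mono hsx), hp.2⟩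
  have h1 : ∑ p ∈ Nat.primesLE ⌊x⌋₊, max (l - (Real.log x - Real.log p)) 0 =
      ∑ p ∈ Nat.primesLE ⌊x⌋₊, (Real.log p - Real.log s) -
      ∑ p ∈ Nat.primesLE ⌊s⌋₊, (Real.log p - Real.log s) := by
    rw [← Finset.sum_sdiff hsub, ← Finset.sum_sdiff hsub (f := fun p : ℕ =>
      (Real.log p - Real.log s)), add_sub_assoc, sub_self, add_zero]
    have h2 : ∑ p ∈ Nat.primesLE ⌊s⌋₊, max (l - (Real.log x - Real.log p)) 0 = 0 := by
      refine Finset.sum_eq_zero fun p hp => ?_
      rw [Nat.mem_primesLE] at hp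
      have hp0 : (0 : ℝ) < p := by exact_mod_cast hp.2.pos
      have hps : (p : ℝ) ≤ s := (Nat.le_floor_iff hs0.le).mp hp.1
      have h3 := Real.log_le_log hp0 hps
      rw [max_eq_right]
      linarith
    rw [h2, add_zero]
    refine Finset.sum_congr rfl fun p hp => ?_
    rw [Finset.mem_sdiff, Nat.mem_primesLE, Nat.mem_primesLE] at hp
    have hps : s < (p : ℝ) := by
      by_contra hcon
      rw [not_lt] at hcon
      exact hp.2 ⟨(Nat.le_floor_iff hs0.le).mpr hcon, hp.1.2⟩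
    have h3 := Real.log_le_log hs0 hps.le
    rw [max_eq_left (by linarith), hlogs]
    ring
  rw [h1, Finset.sum_sub_distrib, Finset.sum_sub_distrib, Finset.sum_const, Finset.sum_const,
    Nat.primesLE_card_eq_primeCounting, Nat.primesLE_card_eq_primeCounting,
    ← Chebyshev.theta_eq_sum_primesLE, ← Chebyshev.theta_eq_sum_primesLE,
    Chebyshev.theta_eq_primeCounting_mul_log_sub_integral hx2,
    Chebyshev.theta_eq_primeCounting_mul_log_sub_integral hs2,
    ← intervalIntegral.integral_add_adjacent_intervals (pi_integrable (by norm_num) hs2)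
      (pi_integrable hs0 hsx), nsmul_eq_mul, nsmul_eq_mul, hlogs]
  ring

/-- upper bound for the sum -/
theorem sum_pos_part_le {l ε : ℝ} (hl : 0 < l) (hε : 0 < ε) : ∀ᶠ x : ℝ in atTop,
    ∑ p ∈ Nat.primesLE ⌊x⌋₊, max (l - (Real.log x - Real.log p)) 0 ≤
      (l - 1 + Real.exp (-l) + ε) * (x / Real.log x) := by
  set δ : ℝ := ε / (l + 1) with hδ
  have hδ0 : 0 < δ := by positivity
  have hpi := Pool.Agent.Cov.PNT.pi_tendsto
  obtain ⟨t₁, ht₁⟩ := eventually_atTop.mp (hpi.eventually (lt_mem_nhds (show (1 : ℝ) - δ < 1 by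
    linarith)))
  filter_upwards [hpi.eventually (gt_mem_nhds (show (1 : ℝ) < 1 + δ by linarith)),
    eventually_ge_atTop (2 * Real.exp l),
    eventually_ge_atTop (t₁ * Real.exp l)] with x h1 h2 h3
  rw [sum_pos_part hl.le h2]
  have he : 1 ≤ Real.exp l := Real.one_le_exp hl.le
  have hx2 : 2 ≤ x := by linarith
  have hx0 : 0 < x := by linarith
  have hlx : 0 < Real.log x := Real.log_pos (by linarith)
  set s : ℝ := Real.exp (-l) * x with hs
  have hee : Real.exp (-l) * Real.exp l = 1 := by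
    rw [← Real.exp_add]
    simp
  have hs2 : 2 ≤ s := by
    have h4 : Real.exp (-l) * (2 * Real.exp l) ≤ Real.exp (-l) * x := by gcongr
    nlinarith
  have hst : t₁ ≤ s := by
    have h4 : Real.exp (-l) * (t₁ * Real.exp l) ≤ Real.exp (-l) * x := by gcongr
    nlinarith
  have hs0 : 0 < s := by linarith
  have hsx : s ≤ x := by
    have h4 : Real.exp (-l) ≤ 1 := Real.exp_le_one_iff.mpr (by linarith)
    nlinarith
  have h5 : (x - s) * ((1 - δ) / Real.log x) ≤
      ∫ t in s..x, (Nat.primeCounting ⌊t⌋₊ : ℝ) / t := by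
    have h6 : ∫ _ in s..x, (1 - δ) / Real.log x = (x - s) * ((1 - δ) / Real.log x) := by
      rw [intervalIntegral.integral_const, smul_eq_mul]
    rw [← h6]
    refine intervalIntegral.integral_mono_on hsx (by simp) (pi_integrable hs0 hsx) fun t ht => ?_
    have ht0 : (0 : ℝ) < t := by linarith [ht.1]
    have hlt : 0 < Real.log t := Real.log_pos (by linarith [ht.1])
    have hle : Real.log t ≤ Real.log x := Real.log_le_log ht0 ht.2
    have h7 := ht₁ t (hst.trans ht.1)
    rw [lt_div_iff₀ ht0] at h7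
    rw [div_le_div_iff₀ hlx ht0]
    have h8 : (Nat.primeCounting ⌊t⌋₊ : ℝ) * Real.log t ≤
        (Nat.primeCounting ⌊t⌋₊ : ℝ) * Real.log x := by gcongr
    linarith
  rw [div_lt_iff₀ hx0] at h1
  have h9 : (Nat.primeCounting ⌊x⌋₊ : ℝ) ≤ (1 + δ) * (x / Real.log x) := by
    rw [← mul_div_assoc, le_div_iff₀ hlx]
    exact h1.le
  have h10 : (Nat.primeCounting ⌊x⌋₊ : ℝ) * l ≤ (1 + δ) * (x / Real.log x) * l := by gcongr
  have h11 : (x - s) * ((1 - δ) / Real.log x) =
      (1 - Real.exp (-l)) * (1 - δ) * (x / Real.log x) := by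
    rw [hs]
    ring
  have hδl : δ * (l + 1) = ε := by
    rw [hδ]
    field_simp
  have hxl : 0 < x / Real.log x := by positivity
  have h12 : ((1 + δ) * l - (1 - Real.exp (-l)) * (1 - δ)) ≤ (l - 1 + Real.exp (-l) + ε) := by
    have h13 : 0 < Real.exp (-l) := Real.exp_pos _
    nlinarith
  have h14 := mul_le_mul_of_nonneg_right h12 hxl.le
  nlinarith

/-- `π(x) log x - θ(x) ≪ x / log x` -/
theorem pi_mul_log_sub_theta_le : ∃ C : ℝ, 0 < C ∧ ∀ᶠ x : ℝ in atTop,
    (Nat.primeCounting ⌊x⌋₊ : ℝ) * Real.log x - Chebyshev.theta x ≤ C * (x / Real.log x) := by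
  obtain ⟨C, hC, h⟩ := Chebyshev.primeCounting_sub_theta_div_log_isBigO.exists_pos
  refine ⟨C, hC, ?_⟩
  filter_upwards [h.bound, eventually_gt_atTop 1] with x h1 hx
  have hlx : 0 < Real.log x := Real.log_pos hx
  have hx0 : 0 < x := by linarith
  rw [Real.norm_of_nonneg (show 0 ≤ x / Real.log x ^ 2 by positivity)] at h1
  have h2 := (le_abs_self _).trans h1
  have h3 := mul_le_mul_of_nonneg_right h2 hlx.le
  have h4 : ((Nat.primeCounting ⌊x⌋₊ : ℝ) - Chebyshev.theta x / Real.log x) * Real.log x =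
      (Nat.primeCounting ⌊x⌋₊ : ℝ) * Real.log x - Chebyshev.theta x := by
    field_simp
  have h5 : C * (x / Real.log x ^ 2) * Real.log x = C * (x / Real.log x) := by
    field_simp
  rw [h4, h5] at h3
  exact h3

end Pool.Agent.T6.H82.HC
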