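import Mathlib

/-!
# The inequality for one pair
-/

set_option autoImplicit false

namespace Pool.Agent.T6.H82.HC

theorem log_lower {L κ y : ℝ} (hy : 0 < y) (hκ : 0 ≤ κ) (hκL : κ < L) :
    L * (Real.log (9 / 16) + 1) - 3 * y / 16 - κ / 2 ≤
      L * (Real.log (3 * L - κ) - Real.log y) := by
  have hL : 0 < L := by linarith
  have h1 : 1 - 3 * L / (3 * L - κ) ≤ Real.log (3 * L - κ) - Real.log (3 * L) := by
    have h2 := Real.one_sub_inv_le_log_of_pos (show 0 < (3 * L - κ) / (3 * L) by
      apply div_pos <;> linarith)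
    rw [Real.log_div (by linarith) (by linarith), inv_div] at h2
    exact h2
  have h3 : -(κ / (2 * L)) ≤ 1 - 3 * L / (3 * L - κ) := by
    have h4 : 1 - 3 * L / (3 * L - κ) = -(κ / (3 * L - κ)) := by
      have : 3 * L - κ ≠ 0 := by linarith
      field_simp
      ring
    rw [h4]
    apply neg_le_neg
    apply div_le_div_of_nonneg_left hκ (by linarith) (by linarith)
  have h5 : 1 - 3 * y / (16 * L) ≤ Real.log (3 * L) - Real.log y - Real.log (9 / 16) := by
    have h6 := Real.one_sub_inv_le_log_of_pos (show 0 < 16 * L / (3 * y) by positivity)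
    have h7 : 16 * L / (3 * y) = 3 * L / y / (9 / 16) := by
      field_simp
      ring
    rw [inv_div] at h6
    rw [h7, Real.log_div (by positivity) (by norm_num), Real.log_div (by positivity) hy.ne'] at h6
    exact h6
  have h8 : -(κ / (2 * L)) + (1 - 3 * y / (16 * L)) + Real.log (9 / 16) ≤
      Real.log (3 * L - κ) - Real.log y := by linarith
  have h9 := mul_le_mul_of_nonneg_left h8 hL.le
  have h10 : L * (-(κ / (2 * L)) + (1 - 3 * y / (16 * L)) + Real.log (9 / 16)) =
      L * (Real.log (9 / 16) + 1) - 3 * y / 16 - κ / 2 := by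
    field_simp
    ring
  linarith

theorem div_log_upper {L y l κ : ℝ} (hl : l = Real.log y) (hy : 0 < y) (hl3 : 3 ≤ l)
    (hll : 4 * Real.log l ≤ l) (hκL : κ < L) (hκ1 : y / (2 * l) ≤ κ) (hLy : L ≤ y) :
    L / Real.log L ≤ L / l + 4 * (y * Real.log l / l ^ 2) := by
  have hl0 : 0 < l := by linarith
  have hκ0 : 0 < κ := lt_of_lt_of_le (by positivity) hκ1
  have hL0 : 0 < L := by linarith
  have hll0 : 0 ≤ Real.log l := Real.log_nonneg (by linarith)
  have h1 : y / l ^ 2 ≤ L := by
    have h2 : y / l ^ 2 ≤ y / (2 * l) := by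
      apply div_le_div_of_nonneg_left hy.le (by positivity)
      nlinarith
    linarith
  have h3 : l - 2 * Real.log l ≤ Real.log L := by
    have h4 := Real.log_le_log (by positivity) h1
    rw [Real.log_div hy.ne' (by positivity), Real.log_pow, ← hl] at h4
    push_cast at h4
    exact h4
  have h5 : l / 2 ≤ l - 2 * Real.log l := by linarith
  have h6 : 0 < l - 2 * Real.log l := by linarith
  have h7 : L / Real.log L ≤ L / (l - 2 * Real.log l) :=
    div_le_div_of_nonneg_left hL0.le h6 h3
  have h8 : L / (l - 2 * Real.log l) = L / l + L * (2 * Real.log l) / (l * (l - 2 * Real.log l)) := by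
    field_simp
    ring
  have h9 : L * (2 * Real.log l) / (l * (l - 2 * Real.log l)) ≤
      y * (2 * Real.log l) / (l * (l / 2)) := by
    apply div_le_div₀ (by positivity) _ (by positivity)
    · exact mul_le_mul_of_nonneg_left h5 hl0.le
    · exact mul_le_mul_of_nonneg_right hLy (by positivity)
  have h10 : y * (2 * Real.log l) / (l * (l / 2)) = 4 * (y * Real.log l / l ^ 2) := by
    field_simp
    ring
  linarith

/-- the inequality for one pair -/
theorem linear {K C δ y l κ L W n : ℝ} (hl : l = Real.log y) (hy : 0 < y) (hl3 : 3 ≤ l)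
    (hll : 4 * Real.log l ≤ l) (hK : 2 ≤ K) (hC : 0 ≤ C)
    (hδ1 : Real.log l ≤ δ * l) (hδ2 : l ≤ δ * y) (hδ3 : 1 ≤ δ * l) (hly : l ≤ y)
    (hW1 : W ≤ 2 * L) (hW2 : 2 * L ≤ W + Real.log 2) (hκL : κ < L)
    (hκ1 : y / (2 * l) ≤ κ) (hκ2 : κ ≤ y / l)
    (hLy : L ≤ y) (hn1 : W ≤ n * l) (hn2 : n * l - W ≤ C * (y / l))
    (hfail : κ - 2 * L + n * Real.log (3 * L - κ) ≤ K * (L / Real.log L)) :
    κ - 3 / 8 * (y / l) - δ * (3 + C + 5 * K) * (y / l) ≤
      n * (K / 2 - 1 - Real.log (9 / 16)) - (n * l - W) := by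
  have hl0 : 0 < l := by linarith
  have hκ0 : 0 < κ := lt_of_lt_of_le (by positivity) hκ1
  have hL0 : 0 < L := by linarith
  have hll0 : 0 ≤ Real.log l := Real.log_nonneg (by linarith)
  have hlog2 : 0 < Real.log 2 := Real.log_pos (by norm_num)
  have hlog2' : Real.log 2 ≤ 1 := by
    have := Real.log_le_sub_one_of_pos (show (0 : ℝ) < 2 by norm_num)
    linarith
  set q : ℝ := y / l with hq
  have hq0 : 0 < q := by positivity
  have hq1 : 1 ≤ q := by
    rw [hq, le_div_iff₀ hl0]
    linarith
  have hδq : 1 ≤ δ * q := by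
    rw [hq, ← mul_div_assoc, le_div_iff₀ hl0]
    linarith
  have hδ0 : 0 < δ := by
    by_contra hcon
    rw [not_lt] at hcon
    nlinarith
  have h916 : Real.log (9 / 16 : ℝ) < 0 := Real.log_neg (by norm_num) (by norm_num)
  have h916' : -1 ≤ Real.log (9 / 16 : ℝ) := by
    have := Real.one_sub_inv_le_log_of_pos (show (0 : ℝ) < 9 / 16 by norm_num)
    norm_num at this
    linarith
  set z : ℝ := Real.log (3 * L - κ) - l with hz
  -- size of `z`
  have hz1 : z ≤ Real.log l := by
    have h1 : Real.log (3 * L - κ) ≤ Real.log (l * y) := by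
      apply Real.log_le_log (by linarith)
      nlinarith
    rw [Real.log_mul hl0.ne' hy.ne', ← hl] at h1
    linarith
  have hz2 : -Real.log l ≤ z := by
    have h1 : Real.log (y / l) ≤ Real.log (3 * L - κ) := by
      apply Real.log_le_log (by positivity)
      have h2 : y / l = 2 * (y / (2 * l)) := by field_simp
      linarith
    rw [Real.log_div hy.ne' hl0.ne', ← hl] at h1
    linarith
  have hzabs : |z| ≤ Real.log l := abs_le.mpr ⟨hz2, hz1⟩
  -- `n` against `2 L / l`
  have hn3 : |n - 2 * L / l| ≤ (C * q + 1) / l := by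
    rw [abs_le]
    constructor
    · have h1 : 2 * L / l ≤ (n * l + 1) / l := by
        apply div_le_div_of_nonneg_right _ hl0.le
        linarith
      have h2 : (n * l + 1) / l = n + 1 / l := by field_simp
      have h3 : 1 / l ≤ (C * q + 1) / l := by
        apply div_le_div_of_nonneg_right _ hl0.le
        nlinarith [mul_nonneg hC hq0.le]
      linarith
    · have h1 : n ≤ (2 * L + C * q) / l := by
        rw [le_div_iff₀ hl0]
        linarith
      have h2 : (2 * L + C * q) / l = 2 * L / l + C * q / l := by ring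
      have h3 : C * q / l ≤ (C * q + 1) / l := by
        apply div_le_div_of_nonneg_right _ hl0.le
        linarith
      linarith
  have h1 : -((C * q + 1) / l * Real.log l) ≤ (n - 2 * L / l) * z := by
    have h2 : |(n - 2 * L / l) * z| ≤ (C * q + 1) / l * Real.log l := by
      rw [abs_mul]
      exact mul_le_mul hn3 hzabs (abs_nonneg _) (by positivity)
    linarith [neg_abs_le ((n - 2 * L / l) * z)]
  have h2 : (C * q + 1) / l * Real.log l ≤ δ * ((C + 1) * q) := by
    have h3 : (C * q + 1) / l * Real.log l = (C * q + 1) * (Real.log l / l) := by ring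
    have h4 : Real.log l / l ≤ δ := by
      rw [div_le_iff₀ hl0]
      exact hδ1
    have h5 : (C * q + 1) * (Real.log l / l) ≤ (C * q + 1) * δ :=
      mul_le_mul_of_nonneg_left h4 (by positivity)
    rw [h3]
    have h16 := mul_le_mul_of_nonneg_left hq1 hδ0.le
    linarith
  have h3 := log_lower hy hκ0.le hκL
  rw [← hl, ← hz] at h3
  have h4 := div_log_upper hl hy hl3 hll hκL hκ1 hLy
  have h5 : y * Real.log l / l ^ 2 ≤ δ * q := by
    have h6 : y * Real.log l / l ^ 2 = q * (Real.log l / l) := by
      rw [hq]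
      field_simp
    have h7 : Real.log l / l ≤ δ := by
      rw [div_le_iff₀ hl0]
      exact hδ1
    rw [h6]
    have h16 := mul_le_mul_of_nonneg_left h7 hq0.le
    linarith
  have h6 : K * (L / Real.log L) ≤ K * (L / l) + 4 * K * (δ * q) := by
    have h7 := mul_le_mul_of_nonneg_left h4 (show 0 ≤ K by linarith)
    have h8 := mul_le_mul_of_nonneg_left h5 (show 0 ≤ K by linarith)
    linarith
  -- `n log (3 L - κ)`
  have h7 : n * Real.log (3 * L - κ) = n * l + 2 / l * (L * z) + (n - 2 * L / l) * z := by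
    have : Real.log (3 * L - κ) = l + z := by rw [hz]; ring
    rw [this]
    ring
  have h8 : 2 / l * (L * (Real.log (9 / 16) + 1) - 3 * y / 16 - κ / 2) ≤ 2 / l * (L * z) :=
    mul_le_mul_of_nonneg_left h3 (by positivity)
  have h9 : 2 / l * (L * (Real.log (9 / 16) + 1) - 3 * y / 16 - κ / 2) =
      2 * (L / l) * (Real.log (9 / 16) + 1) - 3 / 8 * q - κ / l := by
    rw [hq]
    field_simp
    ring
  have h10 : κ / l ≤ δ * q := by
    rw [div_le_iff₀ hl0]
    have h16 := mul_le_mul_of_nonneg_right hδ3 hq0.le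
    linarith
  -- replace `2 L / l` by `n`
  set lam : ℝ := K / 2 - 1 - Real.log (9 / 16) with hlam
  have hlam0 : 0 ≤ lam := by
    rw [hlam]
    linarith
  have hlamK : lam ≤ K := by
    rw [hlam]
    linarith
  have h11 : 2 * (L / l) ≤ n + 1 := by
    have h12 : 2 * L ≤ (n + 1) * l := by
      have h16 : (n + 1) * l = n * l + l := by ring
      linarith
    have h13 : 2 * (L / l) = 2 * L / l := by ring
    rw [h13, div_le_iff₀ hl0]
    exact h12
  have h12 : 2 * (L / l) * lam ≤ (n + 1) * lam := mul_le_mul_of_nonneg_right h11 hlam0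
  have h13 : K * (L / l) - 2 * (L / l) * (Real.log (9 / 16) + 1) = 2 * (L / l) * lam := by
    rw [hlam]
    ring
  have h14 : lam ≤ K * (δ * q) := by
    have h16 : K * 1 ≤ K * (δ * q) := mul_le_mul_of_nonneg_left hδq (by linarith)
    linarith
  have h15 : δ * (3 + C + 5 * K) * q = δ * q + δ * q + δ * ((C + 1) * q) + K * (δ * q) +
    4 * K * (δ * q) := by ring
  have h16 : (n + 1) * lam = n * lam + lam := by ring
  linarith

end Pool.Agent.T6.H82.HC
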