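import Mathlib

/-!
# Triples from two products of primes which agree modulo a power of two
-/

set_option autoImplicit false

namespace Pool.Agent.T6.H82.HC

open Filter Topology

/-- `γ(n)`, the product of the primes dividing `n` -/
def radical (n : ℕ) : ℕ := ∏ p ∈ n.primeFactors, p

/-- `ω(n)`, the number of primes dividing `n` -/
def omega (n : ℕ) : ℕ := n.primeFactors.card

/-- `H(n) = γ(n) / (log γ(n)) ^ ω(n)` -/
noncomputable def H (n : ℕ) : ℝ := (radical n : ℝ) / Real.log (radical n : ℝ) ^ omega n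

theorem radical_pos (n : ℕ) : 0 < radical n :=
  Finset.prod_pos fun _ hr => (Nat.prime_of_mem_primeFactors hr).pos

/-- `- g + k log g` decreases for `g ≥ k` -/
theorem decr {k g G : ℝ} (hk : 0 ≤ k) (hg : 0 < g) (hkg : k ≤ g) (hgG : g ≤ G) :
    -G + k * Real.log G ≤ -g + k * Real.log g := by
  have hG : 0 < G := by linarith
  have h1 : Real.log G - Real.log g ≤ G / g - 1 := by
    rw [← Real.log_div hG.ne' hg.ne']
    exact Real.log_le_sub_one_of_pos (by positivity)
  have h2 : k * (G / g - 1) ≤ G - g := by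
    have h3 : 0 ≤ G / g - 1 := by
      rw [sub_nonneg, one_le_div hg]
      exact hgG
    calc k * (G / g - 1) ≤ g * (G / g - 1) := by gcongr
      _ = G - g := by field_simp
  have h4 := mul_le_mul_of_nonneg_left h1 hk
  linarith

/-- the triple `(c - b, b, c)` for `b < c < 2 b`, `2 ^ k ∣ c - b`, `b c = ∏ (p ∈ U) p` -/
theorem triple {U : Finset ℕ} {b c k y : ℕ} (hk : 1 ≤ k) (hU : U ⊆ Nat.primesLE y) (h2 : 2 ∉ U)
    (hprod : b * c = ∏ p ∈ U, p) (hbc : b < c) (hcb : c < 2 * b) (hdvd : 2 ^ k ∣ c - b) :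
    0 < c - b ∧ 0 < b ∧ Nat.Coprime (c - b) b ∧ 0 < H ((c - b) * b * c) ∧
    k * Real.log 2 < Real.log c ∧
    ∑ p ∈ U, Real.log p ≤ 2 * Real.log c ∧ 2 * Real.log c ≤ ∑ p ∈ U, Real.log p + Real.log 2 ∧
    k * Real.log 2 - 2 * Real.log c +
      U.card * Real.log (3 * Real.log c - k * Real.log 2) ≤
      Real.log c - Real.log (H ((c - b) * b * c)) := by
  have hb0 : 0 < b := by omega
  have hc0 : 0 < c := by omega
  have ha0 : 0 < c - b := by omega
  have hbR : (0 : ℝ) < b := by exact_mod_cast hb0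
  have hcR : (0 : ℝ) < c := by exact_mod_cast hc0
  have hp : ∀ p ∈ U, p.Prime := fun p hp => (Nat.mem_primesLE.mp (hU hp)).2
  have hp3 : ∀ p ∈ U, 3 ≤ p := by
    intro p h
    have h3 := (hp p h).two_le
    have h4 : p ≠ 2 := fun h5 => h2 (h5 ▸ h)
    omega
  have hsq : Squarefree (∏ p ∈ U, p) := by
    have h3 : ∏ p ∈ U, p ∣ primorial y := by
      rw [primorial_eq_prod_primesLE]
      exact Finset.prod_dvd_prod_of_subset _ _ _ hU
    exact Squarefree.squarefree_of_dvd h3 (squarefree_primorial y)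
  have hcop : Nat.Coprime b c := by
    rw [← hprod] at hsq
    exact Nat.coprime_of_squarefree_mul hsq
  have hcop' : Nat.Coprime (c - b) b := by
    rw [Nat.coprime_sub_self_left hbc.le]
    exact hcop.symm
  have hWe : ∑ p ∈ U, Real.log p = Real.log b + Real.log c := by
    rw [← Real.log_mul hbR.ne' hcR.ne', ← Nat.cast_mul, hprod, Nat.cast_prod, Real.log_prod]
    intro p h
    have := (hp p h).pos
    positivity
  have hlbc : Real.log b ≤ Real.log c := Real.log_le_log hbR (by exact_mod_cast hbc.le)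
  have hlcb : Real.log c ≤ Real.log b + Real.log 2 := by
    rw [← Real.log_mul hbR.ne' (by norm_num)]
    apply Real.log_le_log hcR
    have h3 : (c : ℝ) ≤ 2 * b := by exact_mod_cast hcb.le
    linarith
  obtain ⟨a', ha'⟩ := hdvd
  have ha'0 : 0 < a' := by
    rcases Nat.eq_zero_or_pos a' with h | h
    · rw [h, mul_zero] at ha'
      omega
    · exact h
  have ha'R : (0 : ℝ) < a' := by exact_mod_cast ha'0
  have hκ : k * Real.log 2 < Real.log c := by
    rw [← Real.log_pow]
    apply Real.log_lt_log (by positivity)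
    have h3 : 2 ^ k ≤ 2 ^ k * a' := Nat.le_mul_of_pos_right _ ha'0
    have h4 : 2 ^ k < c := by omega
    exact_mod_cast h4
  have hla' : Real.log a' ≤ Real.log c - Real.log 2 - k * Real.log 2 := by
    have h3 : 2 * (2 ^ k * a') < c := by omega
    have h4 : (2 : ℝ) * (2 ^ k * a') ≤ c := by exact_mod_cast h3.le
    have h5 := Real.log_le_log (by positivity) h4
    rw [Real.log_mul (by norm_num) (by positivity), Real.log_mul (by positivity) ha'R.ne',
      Real.log_pow] at h5
    linarith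
  -- the radical
  set n : ℕ := (c - b) * b * c with hn
  have hn0 : n ≠ 0 := by
    rw [hn]
    positivity
  have hsub : U ⊆ n.primeFactors := by
    intro p h
    rw [Nat.mem_primeFactors]
    refine ⟨hp p h, ?_, hn0⟩
    have h3 : p ∣ b * c := by
      rw [hprod]
      exact Finset.dvd_prod_of_mem _ h
    rw [hn, mul_assoc]
    exact Dvd.dvd.mul_left h3 _
  have hω : (U.card : ℝ) ≤ (omega n : ℝ) := by
    exact_mod_cast Finset.card_le_card hsub
  have hrlow : ∏ p ∈ U, p ≤ radical n :=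
    Nat.le_of_dvd (radical_pos n) (Finset.prod_dvd_prod_of_subset _ _ _ hsub)
  have hrup : radical n ≤ 2 * a' * b * c := by
    have h3 : n.primeFactors = (2 * a' * b * c).primeFactors := by
      rw [hn, ha', Nat.primeFactors_mul (by positivity) hc0.ne',
        Nat.primeFactors_mul (by positivity) hb0.ne', Nat.primeFactors_mul (by positivity)
        ha'0.ne', Nat.primeFactors_mul (a := 2 * a' * b) (by positivity) hc0.ne',
        Nat.primeFactors_mul (a := 2 * a') (by positivity) hb0.ne',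
        Nat.primeFactors_mul (a := 2) (by positivity) ha'0.ne', Nat.primeFactors_pow _ (by omega)]
    unfold radical
    rw [h3]
    exact Nat.le_of_dvd (by positivity) (Nat.prod_primeFactors_dvd _)
  have hr0 : (0 : ℝ) < (radical n : ℝ) := by exact_mod_cast radical_pos n
  set g : ℝ := Real.log (radical n : ℝ) with hg
  have hglow : ∑ p ∈ U, Real.log p ≤ g := by
    have h3 : ∑ p ∈ U, Real.log p = Real.log ((∏ p ∈ U, p : ℕ) : ℝ) := by
      rw [Nat.cast_prod, Real.log_prod]
      intro p h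
      have := (hp p h).pos
      positivity
    rw [h3]
    apply Real.log_le_log
    · have h4 : 0 < ∏ p ∈ U, p := Finset.prod_pos fun p h => (hp p h).pos
      exact_mod_cast h4
    · exact_mod_cast hrlow
  have hgup : g ≤ 3 * Real.log c - k * Real.log 2 := by
    have h3 : (radical n : ℝ) ≤ 2 * a' * b * c := by exact_mod_cast hrup
    have h4 := Real.log_le_log hr0 h3
    rw [Real.log_mul (by positivity) hcR.ne', Real.log_mul (by positivity) hbR.ne',
      Real.log_mul (by norm_num) ha'R.ne'] at h4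
    linarith
  have hcard : (U.card : ℝ) ≤ ∑ p ∈ U, Real.log p := by
    rw [Finset.card_eq_sum_ones, Nat.cast_sum]
    refine Finset.sum_le_sum fun p h => ?_
    have h3 : (3 : ℝ) ≤ p := by exact_mod_cast hp3 p h
    have h4 : Real.exp 1 ≤ p := by
      have := Real.exp_one_lt_three
      linarith
    have h5 := Real.log_le_log (Real.exp_pos 1) h4
    rw [Real.log_exp] at h5
    simpa using h5
  have hU1 : 1 ≤ U.card := by
    rw [Nat.one_le_iff_ne_zero, Finset.card_ne_zero, Finset.nonempty_iff_ne_empty]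
    intro h3
    rw [h3, Finset.prod_empty] at hprod
    have h4 : 1 * 2 ≤ b * c := Nat.mul_le_mul hb0 (by omega)
    omega
  have hU1' : (1 : ℝ) ≤ U.card := by exact_mod_cast hU1
  have hg1 : 1 ≤ g := by linarith
  have hg0 : 0 < g := by linarith
  have hlogg : 0 ≤ Real.log g := Real.log_nonneg hg1
  have hHdef : H n = (radical n : ℝ) / g ^ omega n := rfl
  have hH0 : 0 < H n := by
    rw [hHdef]
    positivity
  refine ⟨ha0, hb0, hcop', hH0, hκ, by linarith, by linarith, ?_⟩
  have hlogH : Real.log (H n) = g - (omega n : ℝ) * Real.log g := by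
    rw [hHdef, Real.log_div hr0.ne' (by positivity), Real.log_pow]
  rw [hlogH]
  have h5 : (U.card : ℝ) * Real.log g ≤ (omega n : ℝ) * Real.log g := by gcongr
  have h6 := decr (k := (U.card : ℝ)) (g := g)
    (G := 3 * Real.log c - k * Real.log 2) (Nat.cast_nonneg _) hg0
    (hcard.trans hglow) hgup
  linarith

/-- the triple of two sets of primes -/
theorem pair_aux {A B : Finset ℕ} {k y : ℕ} (hk : 1 ≤ k) (hA : A ⊆ (Nat.primesLE y).erase 2)
    (hB : B ⊆ (Nat.primesLE y).erase 2)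
    (hmod : (∏ p ∈ A, p) ≡ (∏ p ∈ B, p) [MOD 2 ^ k])
    (hlog : Nat.log 2 (∏ p ∈ A, p) = Nat.log 2 (∏ p ∈ B, p))
    (hlt : ∏ p ∈ A \ B, p < ∏ p ∈ B \ A, p) :
    ∃ a b c : ℕ, 0 < a ∧ 0 < b ∧ a + b = c ∧ Nat.Coprime a b ∧ 0 < H (a * b * c) ∧
    k * Real.log 2 < Real.log c ∧
    ∑ p ∈ symmDiff A B, Real.log p ≤ 2 * Real.log c ∧
    2 * Real.log c ≤ ∑ p ∈ symmDiff A B, Real.log p + Real.log 2 ∧
    k * Real.log 2 - 2 * Real.log c +
      (symmDiff A B).card * Real.log (3 * Real.log c - k * Real.log 2) ≤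
      Real.log c - Real.log (H (a * b * c)) := by
  have hAp : ∀ p ∈ A, p.Prime := fun p hp =>
    (Nat.mem_primesLE.mp (Finset.mem_of_mem_erase (hA hp))).2
  have hBp : ∀ p ∈ B, p.Prime := fun p hp =>
    (Nat.mem_primesLE.mp (Finset.mem_of_mem_erase (hB hp))).2
  set D := ∏ p ∈ A \ B, p with hD
  set E := ∏ p ∈ B \ A, p with hE
  set I := ∏ p ∈ A ∩ B, p with hI
  have hAD : ∏ p ∈ A, p = I * D := by
    rw [hI, hD, Finset.prod_inter_mul_prod_sdiff]
  have hBE : ∏ p ∈ B, p = I * E := by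
    rw [hI, hE, Finset.inter_comm, Finset.prod_inter_mul_prod_sdiff]
  have hI0 : 0 < I := Finset.prod_pos fun p hp => (hAp p (Finset.mem_of_mem_inter_left hp)).pos
  have hD0 : 0 < D := Finset.prod_pos fun p hp => (hAp p (Finset.mem_sdiff.mp hp).1).pos
  have hE0 : 0 < E := Finset.prod_pos fun p hp => (hBp p (Finset.mem_sdiff.mp hp).1).pos
  have hIcop : Nat.Coprime (2 ^ k) I := by
    apply Nat.Coprime.pow_left
    rw [hI]
    apply Nat.Coprime.prod_right
    intro p hp
    rw [Nat.coprime_primes Nat.prime_two (hAp p (Finset.mem_of_mem_inter_left hp))]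
    intro h
    have := Finset.ne_of_mem_erase (hA (Finset.mem_of_mem_inter_left hp))
    exact this h.symm
  rw [hAD, hBE] at hmod hlog
  have hDE : D ≡ E [MOD 2 ^ k] := Nat.ModEq.cancel_left_of_coprime hIcop hmod
  have hED2 : E < 2 * D := by
    have h1 : I * E < 2 ^ (Nat.log 2 (I * E) + 1) := Nat.lt_pow_succ_log_self (by norm_num) _
    have h2 : 2 ^ (Nat.log 2 (I * D)) ≤ I * D := Nat.pow_log_le_self 2 (by positivity)
    rw [← hlog, pow_succ] at h1
    have h3 : I * E < I * (2 * D) := by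
      calc I * E < 2 ^ Nat.log 2 (I * D) * 2 := h1
        _ ≤ I * D * 2 := Nat.mul_le_mul_right _ h2
        _ = I * (2 * D) := by ring
    exact Nat.lt_of_mul_lt_mul_left h3
  have hdvd : 2 ^ k ∣ E - D := (Nat.modEq_iff_dvd' hlt.le).mp hDE
  have hprod : D * E = ∏ p ∈ symmDiff A B, p := by
    rw [hD, hE, symmDiff_def, Finset.sup_eq_union, Finset.prod_union]
    exact Finset.disjoint_left.mpr fun p h1 h2 =>
      (Finset.mem_sdiff.mp h1).2 (Finset.mem_sdiff.mp h2).1
  have hU : symmDiff A B ⊆ (Nat.primesLE y).erase 2 := by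
    intro p hp
    rw [Finset.mem_symmDiff] at hp
    rcases hp with h | h
    · exact hA h.1
    · exact hB h.1
  obtain ⟨h1, h2, h3, h4, h5, h6, h7, h8⟩ := triple (U := symmDiff A B) (b := D) (c := E) (y := y)
    hk (fun p hp => Finset.mem_of_mem_erase (hU hp))
    (fun h => (Finset.ne_of_mem_erase (hU h)) rfl) hprod hlt hED2 hdvd
  exact ⟨E - D, D, E, h1, h2, by omega, h3, h4, h5, h6, h7, h8⟩

/-- the triple of two sets of primes -/
theorem pair {A B : Finset ℕ} {k y : ℕ} (hk : 1 ≤ k) (hA : A ⊆ (Nat.primesLE y).erase 2)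
    (hB : B ⊆ (Nat.primesLE y).erase 2) (hne : A ≠ B)
    (hmod : (∏ p ∈ A, p) ≡ (∏ p ∈ B, p) [MOD 2 ^ k])
    (hlog : Nat.log 2 (∏ p ∈ A, p) = Nat.log 2 (∏ p ∈ B, p)) :
    ∃ a b c : ℕ, 0 < a ∧ 0 < b ∧ a + b = c ∧ Nat.Coprime a b ∧ 0 < H (a * b * c) ∧
    k * Real.log 2 < Real.log c ∧
    ∑ p ∈ symmDiff A B, Real.log p ≤ 2 * Real.log c ∧
    2 * Real.log c ≤ ∑ p ∈ symmDiff A B, Real.log p + Real.log 2 ∧
    k * Real.log 2 - 2 * Real.log c +
      (symmDiff A B).card * Real.log (3 * Real.log c - k * Real.log 2) ≤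
      Real.log c - Real.log (H (a * b * c)) := by
  rcases lt_trichotomy (∏ p ∈ A \ B, p) (∏ p ∈ B \ A, p) with h | h | h
  · exact pair_aux hk hA hB hmod hlog h
  · exfalso
    have hAp : ∀ p ∈ A, p.Prime := fun p hp =>
      (Nat.mem_primesLE.mp (Finset.mem_of_mem_erase (hA hp))).2
    have hBp : ∀ p ∈ B, p.Prime := fun p hp =>
      (Nat.mem_primesLE.mp (Finset.mem_of_mem_erase (hB hp))).2
    have h1 : A \ B = B \ A := by
      rw [← Nat.primeFactors_prod (s := A \ B) fun p hp => hAp p (Finset.mem_sdiff.mp hp).1,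
        ← Nat.primeFactors_prod (s := B \ A) fun p hp => hBp p (Finset.mem_sdiff.mp hp).1, h]
    apply hne
    ext p
    constructor
    · intro hp
      by_contra hcon
      have h2 : p ∈ A \ B := Finset.mem_sdiff.mpr ⟨hp, hcon⟩
      rw [h1] at h2
      exact hcon (Finset.mem_sdiff.mp h2).1
    · intro hp
      by_contra hcon
      have h2 : p ∈ B \ A := Finset.mem_sdiff.mpr ⟨hp, hcon⟩
      rw [← h1] at h2
      exact hcon (Finset.mem_sdiff.mp h2).1
  · rw [symmDiff_comm]
    exact pair_aux hk hB hA hmod.symm hlog.symm h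

/-- many sets of primes in one class -/
theorem family {y k m : ℕ} (h : 2 ^ k * (2 * y + 1) * m < 2 ^ ((Nat.primesLE y).erase 2).card) :
    ∃ F : Finset (Finset ℕ), m < F.card ∧ (∀ A ∈ F, A ⊆ (Nat.primesLE y).erase 2) ∧
      ∀ A ∈ F, ∀ B ∈ F, (∏ p ∈ A, p) ≡ (∏ p ∈ B, p) [MOD 2 ^ k] ∧
        Nat.log 2 (∏ p ∈ A, p) = Nat.log 2 (∏ p ∈ B, p) := by
  classical
  set P := (Nat.primesLE y).erase 2 with hP
  have hmaps : ∀ A ∈ P.powerset, ((∏ p ∈ A, p) % 2 ^ k, Nat.log 2 (∏ p ∈ A, p)) ∈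
      Finset.range (2 ^ k) ×ˢ Finset.range (2 * y + 1) := by
    intro A hA
    rw [Finset.mem_powerset] at hA
    rw [Finset.mem_product, Finset.mem_range, Finset.mem_range]
    refine ⟨Nat.mod_lt _ (by positivity), ?_⟩
    have h1 : ∏ p ∈ A, p ∣ primorial y := by
      rw [primorial_eq_prod_primesLE]
      exact Finset.prod_dvd_prod_of_subset _ _ _ (hA.trans (Finset.erase_subset _ _))
    have h2 := Nat.le_of_dvd (primorial_pos y) h1
    have h3 : ∏ p ∈ A, p ≤ 2 ^ (2 * y) := by
      refine h2.trans ?_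
      rw [pow_mul]
      exact primorial_le_four_pow y
    have h4 := Nat.log_mono_right (b := 2) h3
    rw [Nat.log_pow (by norm_num)] at h4
    show Nat.log 2 (∏ p ∈ A, p) < 2 * y + 1
    omega
  have hcard : (Finset.range (2 ^ k) ×ˢ Finset.range (2 * y + 1)).card * m < P.powerset.card := by
    rw [Finset.card_product, Finset.card_range, Finset.card_range, Finset.card_powerset]
    exact h
  obtain ⟨t, _, ht⟩ := Finset.exists_lt_card_fiber_of_mul_lt_card_of_maps_to hmaps hcard
  refine ⟨_, ht, fun A hA => ?_, fun A hA B hB => ?_⟩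
  · rw [Finset.mem_filter, Finset.mem_powerset] at hA
    exact hA.1
  · rw [Finset.mem_filter] at hA hB
    have h1 := hA.2.trans hB.2.symm
    rw [Prod.mk.injEq] at h1
    exact h1

/-- averaging over the pairs -/
theorem double_count {F : Finset (Finset ℕ)} {P : Finset ℕ} (hF : ∀ A ∈ F, A ⊆ P)
    (hF0 : 0 < F.card) (f : ℕ → ℝ) (hf : ∀ p, 0 ≤ f p) {R : ℝ}
    (h : ∀ A ∈ F, ∀ B ∈ F, A ≠ B → R ≤ ∑ p ∈ symmDiff A B, f p) :
    ((F.card : ℝ) - 1) * R ≤ (F.card : ℝ) / 2 * ∑ p ∈ P, f p := by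
  classical
  set x : Finset ℕ → ℕ → ℝ := fun A p => if p ∈ A then 1 else 0 with hx
  set m : ℝ := (F.card : ℝ) with hm
  have hm0 : 0 < m := by
    rw [hm]
    exact_mod_cast hF0
  have h1 : ∀ A ∈ F, ∀ B ∈ F, ∑ p ∈ symmDiff A B, f p =
      ∑ p ∈ P, (x A p * (1 - x B p) + (1 - x A p) * x B p) * f p := by
    intro A hA B hB
    have hsub : symmDiff A B ⊆ P := by
      intro p hp
      rw [Finset.mem_symmDiff] at hp
      rcases hp with h | h
      · exact hF A hA h.1
      · exact hF B hB h.1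
    rw [← Finset.sum_subset hsub]
    · refine Finset.sum_congr rfl fun p hp => ?_
      rw [Finset.mem_symmDiff] at hp
      rcases hp with h | h <;> simp [hx, h.1, h.2]
    · intro p _ hp
      rw [Finset.mem_symmDiff, not_or] at hp
      by_cases hpA : p ∈ A <;> by_cases hpB : p ∈ B
      · simp [hx, hpA, hpB]
      · exact absurd ⟨hpA, hpB⟩ hp.1
      · exact absurd ⟨hpB, hpA⟩ hp.2
      · simp [hx, hpA, hpB]
  have h2 : ∀ A ∈ F, (m - 1) * R ≤ ∑ B ∈ F, ∑ p ∈ symmDiff A B, f p := by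
    intro A hA
    rw [← Finset.add_sum_erase F _ hA, symmDiff_self, Finset.bot_eq_empty, Finset.sum_empty,
      zero_add]
    have h3 : ∑ _B ∈ F.erase A, R ≤ ∑ B ∈ F.erase A, ∑ p ∈ symmDiff A B, f p := by
      refine Finset.sum_le_sum fun B hB => ?_
      rw [Finset.mem_erase] at hB
      exact h A hA B hB.2 hB.1.symm
    rw [Finset.sum_const, Finset.card_erase_of_mem hA, nsmul_eq_mul, Nat.cast_sub hF0] at h3
    simpa using h3
  have h3 : m * ((m - 1) * R) ≤ ∑ A ∈ F, ∑ B ∈ F, ∑ p ∈ symmDiff A B, f p := by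
    have h4 := Finset.sum_le_sum h2
    rw [Finset.sum_const, nsmul_eq_mul] at h4
    exact h4
  have h4 : ∑ A ∈ F, ∑ B ∈ F, ∑ p ∈ symmDiff A B, f p =
      ∑ p ∈ P, (2 * (∑ A ∈ F, x A p) * (m - ∑ A ∈ F, x A p)) * f p := by
    calc ∑ A ∈ F, ∑ B ∈ F, ∑ p ∈ symmDiff A B, f p
        = ∑ A ∈ F, ∑ B ∈ F, ∑ p ∈ P, (x A p * (1 - x B p) + (1 - x A p) * x B p) * f p :=
          Finset.sum_congr rfl fun A hA => Finset.sum_congr rfl fun B hB => h1 A hA B hB
      _ = ∑ p ∈ P, ∑ A ∈ F, ∑ B ∈ F, (x A p * (1 - x B p) + (1 - x A p) * x B p) * f p := by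
          rw [Finset.sum_comm]
          rw [Finset.sum_congr rfl fun B _ => Finset.sum_comm, Finset.sum_comm]
          exact Finset.sum_congr rfl fun p _ => Finset.sum_comm
      _ = _ := by
          refine Finset.sum_congr rfl fun p _ => ?_
          have h6 : ∀ A ∈ F, ∑ B ∈ F, (x A p * (1 - x B p) + (1 - x A p) * x B p) * f p =
              (x A p * (m - ∑ B ∈ F, x B p) + (1 - x A p) * ∑ B ∈ F, x B p) * f p := by
            intro A _
            rw [← Finset.sum_mul, Finset.sum_add_distrib, ← Finset.mul_sum, ← Finset.mul_sum,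
              Finset.sum_sub_distrib, Finset.sum_const, nsmul_eq_mul, mul_one]
          rw [Finset.sum_congr rfl h6, ← Finset.sum_mul, Finset.sum_add_distrib,
            ← Finset.sum_mul, ← Finset.sum_mul, Finset.sum_sub_distrib, Finset.sum_const,
            nsmul_eq_mul, mul_one]
          ring
  have h5 : ∀ p ∈ P, (2 * (∑ A ∈ F, x A p) * (m - ∑ A ∈ F, x A p)) * f p ≤ m ^ 2 / 2 * f p := by
    intro p _
    refine mul_le_mul_of_nonneg_right ?_ (hf p)
    nlinarith [sq_nonneg (2 * ∑ A ∈ F, x A p - m)]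
  have h6 := Finset.sum_le_sum h5
  rw [← Finset.mul_sum] at h6
  rw [h4] at h3
  have h7 : m * ((m - 1) * R) ≤ m * (m / 2 * ∑ p ∈ P, f p) := by
    refine h3.trans (h6.trans (le_of_eq ?_))
    ring
  exact le_of_mul_le_mul_left h7 hm0

end Pool.Agent.T6.H82.HC
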