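import Pool.Agent.T6.H82.HC.Asym
import Pool.Agent.T6.H82.HC.Pair
import Pool.Agent.T6.H82.HC.Lin

/-!
# Triples with a large quotient `c / H (abc)`
-/

set_option autoImplicit false

namespace Pool.Agent.T6.H82.HC

open Filter Topology

theorem phi_lt {l' l : ℝ} (h0 : 0 < l') (h : l' < l) :
    l' - 1 + Real.exp (-l') < l - 1 + Real.exp (-l) := by
  have h1 : Real.exp (-l') < 1 := by
    rw [← Real.exp_zero]
    exact Real.exp_lt_exp.mpr (by linarith)
  have h2 : (l' - l) + 1 ≤ Real.exp (l' - l) := Real.add_one_le_exp _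
  have h3 : Real.exp (-l) = Real.exp (-l') * Real.exp (l' - l) := by
    rw [← Real.exp_add]
    congr 1
    ring
  have h4 : Real.exp (-l') * ((l' - l) + 1) ≤ Real.exp (-l') * Real.exp (l' - l) :=
    mul_le_mul_of_nonneg_left h2 (Real.exp_pos _).le
  rw [h3]
  nlinarith [Real.exp_pos (-l')]

theorem lam_lt {K : ℝ} (hK : K < 2 + 4 * Real.log (3 / 2)) :
    K / 2 - 1 - Real.log (9 / 16) < 2 * Real.log 2 := by
  have h1 : Real.log (9 / 16 : ℝ) = 2 * Real.log (3 / 2) - 2 * Real.log 2 := by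
    have h2 : (9 / 16 : ℝ) = (3 / 2) ^ 2 / 2 ^ 2 := by norm_num
    rw [h2, Real.log_div (by norm_num) (by norm_num), Real.log_pow, Real.log_pow]
    push_cast
    ring
  rw [h1]
  linarith

/-- large quotients -/
theorem exists_good {K : ℝ} (hK2 : 2 ≤ K) (hK : K < 2 + 4 * Real.log (3 / 2)) :
    ∀ᶠ y : ℕ in atTop, ∃ a b c : ℕ, 0 < a ∧ 0 < b ∧ a + b = c ∧ Nat.Coprime a b ∧
      0 < H (a * b * c) ∧ (y : ℝ) / (2 * Real.log y) < Real.log c ∧
      K * (Real.log c / Real.log (Real.log c)) < Real.log c - Real.log (H (a * b * c)) := by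
  set lam : ℝ := K / 2 - 1 - Real.log (9 / 16) with hlam
  have hlog2 : 0.6931 < Real.log 2 := by
    have := Real.log_two_gt_d9
    linarith
  have hlog2' : Real.log 2 < 0.6932 := by
    have := Real.log_two_lt_d9
    linarith
  have hlam0 : 0 < lam := by
    have : Real.log (9 / 16 : ℝ) < 0 := Real.log_neg (by norm_num) (by norm_num)
    rw [hlam]
    linarith
  have hlam1 : lam < 2 * Real.log 2 := lam_lt hK
  have he4 : Real.exp (-(2 * Real.log 2)) = 1 / 4 := by
    rw [Real.exp_neg, show (2 : ℝ) * Real.log 2 = Real.log 2 + Real.log 2 by ring, Real.exp_add,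
      Real.exp_log (by norm_num)]
    norm_num
  have hphi := phi_lt hlam0 hlam1
  rw [he4] at hphi
  set D : ℝ := (2 * Real.log 2 - 1 + 1 / 4) - (lam - 1 + Real.exp (-lam)) with hD
  have hD0 : 0 < D := by linarith
  set ε : ℝ := min (D / 10) (1 / 10) with hε
  have hε0 : 0 < ε := lt_min (by linarith) (by norm_num)
  have hεD : ε ≤ D / 10 := min_le_left _ _
  have hε1 : ε ≤ 1 / 10 := min_le_right _ _
  set m : ℕ := ⌈4 / D⌉₊ + 1 with hm
  have hm1 : 1 ≤ m := by omega
  have hmD : 4 / D ≤ m := by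
    rw [hm]
    push_cast
    have := Nat.le_ceil (4 / D)
    linarith
  obtain ⟨C, hC0, hC⟩ := pi_mul_log_sub_theta_le
  set δ : ℝ := ε / (3 + C + 5 * K) with hδ
  have hδ0 : 0 < δ := by positivity
  have hδε : δ * (3 + C + 5 * K) = ε := by
    rw [hδ]
    field_simp
  have hpi := Pool.Agent.Cov.PNT.pi_tendsto
  have hlogll : Tendsto (fun x : ℝ => Real.log (Real.log x) / Real.log x) atTop (𝓝 0) := by
    have h1 : Tendsto (fun x : ℝ => Real.log x / x) atTop (𝓝 0) := by
      have := Real.isLittleO_log_id_atTop.tendsto_div_nhds_zero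
      simpa using this
    exact h1.comp Real.tendsto_log_atTop
  have hlogx : Tendsto (fun x : ℝ => Real.log x / x) atTop (𝓝 0) := by
    have := Real.isLittleO_log_id_atTop.tendsto_div_nhds_zero
    simpa using this
  have hlogx2 : Tendsto (fun x : ℝ => Real.log x ^ 2 / x) atTop (𝓝 0) := by
    have := (Real.isLittleO_pow_log_id_atTop (n := 2)).tendsto_div_nhds_zero
    simpa using this
  have hall : ∀ᶠ x : ℝ in atTop,
      (∑ p ∈ Nat.primesLE ⌊x⌋₊, max (lam - (Real.log x - Real.log p)) 0 ≤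
        (lam - 1 + Real.exp (-lam) + ε) * (x / Real.log x)) ∧
      ((Nat.primeCounting ⌊x⌋₊ : ℝ) * Real.log x - Chebyshev.theta x ≤ C * (x / Real.log x)) ∧
      (1 - ε) < (Nat.primeCounting ⌊x⌋₊ : ℝ) * Real.log x / x ∧
      (Nat.primeCounting ⌊x⌋₊ : ℝ) * Real.log x / x < 1 + ε ∧
      Real.log (Real.log x) / Real.log x < min δ (1 / 4) ∧
      Real.log x / x < min δ 1 ∧ Real.log x ^ 2 / x < ε / 10 ∧
      max 3 (1 / δ) ≤ Real.log x ∧ 2 + Real.log (3 * m) ≤ Real.log x ∧ 2 ≤ x := by
    filter_upwards [sum_pos_part_le hlam0 hε0, hC,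
      hpi.eventually (lt_mem_nhds (show (1 : ℝ) - ε < 1 by linarith)),
      hpi.eventually (gt_mem_nhds (show (1 : ℝ) < 1 + ε by linarith)),
      hlogll.eventually (gt_mem_nhds (show (0 : ℝ) < min δ (1 / 4) from
        lt_min hδ0 (by norm_num))),
      hlogx.eventually (gt_mem_nhds (show (0 : ℝ) < min δ 1 from lt_min hδ0 one_pos)),
      hlogx2.eventually (gt_mem_nhds (show (0 : ℝ) < ε / 10 by positivity)),
      Real.tendsto_log_atTop.eventually_ge_atTop (max 3 (1 / δ)),
      Real.tendsto_log_atTop.eventually_ge_atTop (2 + Real.log (3 * m)),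
      eventually_ge_atTop 2] with x h1 h2 h3 h4 h5 h6 h7 h8 h9 h10
    exact ⟨h1, h2, h3, h4, h5, h6, h7, h8, h9, h10⟩
  filter_upwards [(tendsto_natCast_atTop_atTop (R := ℝ)).eventually hall] with y hy
  obtain ⟨h1, h2, h3, h4, h5, h6, h7, h8, h9, h10⟩ := hy
  rw [Nat.floor_natCast] at h1 h2 h3 h4
  set l : ℝ := Real.log y with hl
  have hy0 : (0 : ℝ) < y := by linarith
  have hy2 : 2 ≤ y := by exact_mod_cast h10
  have hl3 : 3 ≤ l := (le_max_left _ _).trans h8
  have hlδ : 1 / δ ≤ l := (le_max_right _ _).trans h8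
  have hl0 : 0 < l := by linarith
  set q : ℝ := y / l with hq
  have hq0 : 0 < q := by positivity
  rw [lt_div_iff₀ hy0] at h3
  rw [div_lt_iff₀ hy0] at h4
  rw [div_lt_iff₀ hl0] at h5
  rw [div_lt_iff₀ hy0] at h6 h7
  have hpi1 : (1 - ε) * q ≤ (Nat.primeCounting y : ℝ) := by
    rw [hq, ← mul_div_assoc, div_le_iff₀ hl0]
    exact h3.le
  have hpi2 : (Nat.primeCounting y : ℝ) ≤ (1 + ε) * q := by
    rw [hq, ← mul_div_assoc, le_div_iff₀ hl0]
    exact h4.le
  -- the number of primes and the exponent of 2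
  set P := (Nat.primesLE y).erase 2 with hP
  have h2mem : 2 ∈ Nat.primesLE y := Nat.mem_primesLE.mpr ⟨hy2, Nat.prime_two⟩
  set n : ℕ := P.card with hn
  have hnR : (n : ℝ) = (Nat.primeCounting y : ℝ) - 1 := by
    have h11 : n + 1 = Nat.primeCounting y := by
      rw [hn, hP, Finset.card_erase_add_one h2mem, Nat.primesLE_card_eq_primeCounting]
    have h12 : ((n + 1 : ℕ) : ℝ) = (Nat.primeCounting y : ℝ) := by rw [h11]
    push_cast at h12
    linarith
  set j : ℕ := Nat.log 2 ((2 * y + 1) * m) + 1 with hj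
  have hjlt : (2 * y + 1) * m < 2 ^ j := Nat.lt_pow_succ_log_self (by norm_num) _
  have hjle : 2 ^ Nat.log 2 ((2 * y + 1) * m) ≤ (2 * y + 1) * m :=
    Nat.pow_log_le_self 2 (by positivity)
  have hm0 : (0 : ℝ) < m := by exact_mod_cast hm1
  have hjR : (j : ℝ) * Real.log 2 ≤ l + Real.log (3 * m) + 1 := by
    have h11 : ((2 : ℝ)) ^ Nat.log 2 ((2 * y + 1) * m) ≤ y * (3 * m) := by
      have h12 : ((2 : ℝ)) ^ Nat.log 2 ((2 * y + 1) * m) ≤ (2 * y + 1) * m := by
        exact_mod_cast hjle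
      nlinarith
    have h13 := Real.log_le_log (by positivity) h11
    rw [Real.log_pow, Real.log_mul hy0.ne' (by positivity), ← hl] at h13
    rw [hj]
    push_cast
    linarith
  have hκreal : (Real.log 2 - ε) * q ≤ ((n : ℝ) - j) * Real.log 2 := by
    have h11 : l ^ 2 ≤ ε / 10 * y := h7.le
    have h12 : l ≤ ε / 10 * q := by
      rw [hq, ← mul_div_assoc, le_div_iff₀ hl0]
      linarith
    have h13 : (1 - ε) * q * Real.log 2 ≤ (Nat.primeCounting y : ℝ) * Real.log 2 := by
      gcongr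
    have h14 : ((n : ℝ) - j) * Real.log 2 = (Nat.primeCounting y : ℝ) * Real.log 2 -
        Real.log 2 - j * Real.log 2 := by
      rw [hnR]
      ring
    rw [h14]
    have h15 : ε * q * Real.log 2 ≤ ε * q * 0.7 := by
      apply mul_le_mul_of_nonneg_left _ (by positivity)
      linarith
    have h16 : (1 - ε) * q * Real.log 2 = Real.log 2 * q - ε * q * Real.log 2 := by ring
    have h17 : (Real.log 2 - ε) * q = Real.log 2 * q - ε * q := by ring
    have h18 : ε / 10 * q = ε * q / 10 := by ring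
    linarith
  have hjn : j < n := by
    have h11 : 0 < ((n : ℝ) - j) * Real.log 2 := by
      refine lt_of_lt_of_le ?_ hκreal
      apply mul_pos _ hq0
      linarith
    have h12 : 0 < (n : ℝ) - j := by
      by_contra hcon
      rw [not_lt] at hcon
      nlinarith
    have h13 : (j : ℝ) < n := by linarith
    exact_mod_cast h13
  set k : ℕ := n - j with hk
  have hk1 : 1 ≤ k := by omega
  have hkR : (k : ℝ) = (n : ℝ) - j := by
    rw [hk, Nat.cast_sub hjn.le]
  set κ : ℝ := k * Real.log 2 with hκ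
  have hκ0 : (Real.log 2 - ε) * q ≤ κ := by
    rw [hκ, hkR]
    exact hκreal
  have hκ1 : (y : ℝ) / (2 * l) ≤ κ := by
    have h11 : (y : ℝ) / (2 * l) = 1 / 2 * q := by
      rw [hq]
      field_simp
    rw [h11]
    refine le_trans ?_ hκ0
    apply mul_le_mul_of_nonneg_right _ hq0.le
    linarith
  have hκ2 : κ ≤ q := by
    have h11 : (k : ℝ) ≤ (Nat.primeCounting y : ℝ) := by
      rw [hkR, hnR]
      have : (0 : ℝ) ≤ j := Nat.cast_nonneg _
      linarith
    have h12 : κ ≤ (1 + ε) * q * Real.log 2 := by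
      rw [hκ]
      exact mul_le_mul_of_nonneg_right (h11.trans hpi2) (by linarith)
    have h13 : (1 + ε) * Real.log 2 ≤ 1 := by nlinarith
    have h14 : (1 + ε) * q * Real.log 2 = ((1 + ε) * Real.log 2) * q := by ring
    have h15 := mul_le_mul_of_nonneg_right h13 hq0.le
    linarith
  -- the class
  have hcount : 2 ^ k * (2 * y + 1) * m < 2 ^ P.card := by
    have h11 : 2 ^ P.card = 2 ^ k * 2 ^ j := by
      rw [← pow_add]
      congr 1
      omega
    rw [h11, mul_assoc]
    exact Nat.mul_lt_mul_of_pos_left hjlt (by positivity)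
  obtain ⟨F, hFm, hFP, hF⟩ := family hcount
  have hFm' : (m : ℝ) < F.card := by exact_mod_cast hFm
  by_contra hcon
  set f : ℕ → ℝ := fun p => max (lam - (l - Real.log p)) 0 with hf
  have hR : ∀ A ∈ F, ∀ B ∈ F, A ≠ B → κ - 3 / 8 * q - ε * q ≤ ∑ p ∈ symmDiff A B, f p := by
    intro A hA B hB hAB
    obtain ⟨a, b, c, ha, hb, habc, hcop, hH, hκL, hW1, hW2, hV⟩ :=
      pair hk1 (hFP A hA) (hFP B hB) hAB (hF A hA B hB).1 (hF A hA B hB).2
    have hU : symmDiff A B ⊆ Nat.primesLE y := by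
      intro p hp
      rw [Finset.mem_symmDiff] at hp
      rcases hp with h | h
      · exact Finset.mem_of_mem_erase (hFP A hA h.1)
      · exact Finset.mem_of_mem_erase (hFP B hB h.1)
    have hfail : κ - 2 * Real.log c +
        (symmDiff A B).card * Real.log (3 * Real.log c - κ) ≤
        K * (Real.log c / Real.log (Real.log c)) := by
      refine hV.trans ?_
      by_contra hcon2
      rw [not_le] at hcon2
      exact hcon ⟨a, b, c, ha, hb, habc, hcop, hH, lt_of_le_of_lt hκ1 hκL, hcon2⟩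
    have hpp : ∀ p ∈ Nat.primesLE y, (1 : ℝ) ≤ p ∧ (p : ℝ) ≤ y := by
      intro p hp
      rw [Nat.mem_primesLE] at hp
      exact ⟨by exact_mod_cast hp.2.one_le, by exact_mod_cast hp.1⟩
    have hterm : ∀ p ∈ Nat.primesLE y, 0 ≤ l - Real.log p := by
      intro p hp
      have := hpp p hp
      have h11 := Real.log_le_log (by linarith) this.2
      linarith
    have hWθ : ∑ p ∈ symmDiff A B, Real.log p ≤ Chebyshev.theta y := by
      rw [Chebyshev.theta_eq_sum_primesLE_log]
      refine Finset.sum_le_sum_of_subset_of_nonneg hU fun p hp _ => ?_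
      exact Real.log_nonneg (hpp p hp).1
    have hθ : Chebyshev.theta y ≤ Real.log 4 * y := Chebyshev.theta_le_log4_mul_x hy0.le
    have hlog4 : Real.log 4 = 2 * Real.log 2 := by
      rw [show (4 : ℝ) = 2 ^ 2 by norm_num, Real.log_pow]
      push_cast
      ring
    have hLy : Real.log c ≤ y := by
      rw [hlog4] at hθ
      nlinarith
    have hnl : ((symmDiff A B).card : ℝ) * l - ∑ p ∈ symmDiff A B, Real.log p =
        ∑ p ∈ symmDiff A B, (l - Real.log p) := by
      rw [Finset.sum_sub_distrib, Finset.sum_const, nsmul_eq_mul]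
    have hn1 : ∑ p ∈ symmDiff A B, Real.log p ≤ (symmDiff A B).card * l := by
      have h11 : 0 ≤ ∑ p ∈ symmDiff A B, (l - Real.log p) :=
        Finset.sum_nonneg fun p hp => hterm p (hU hp)
      linarith
    have hn2 : (symmDiff A B).card * l - ∑ p ∈ symmDiff A B, Real.log p ≤ C * (y / l) := by
      rw [hnl]
      refine le_trans (Finset.sum_le_sum_of_subset_of_nonneg hU fun p hp _ => hterm p hp) ?_
      rw [Finset.sum_sub_distrib, Finset.sum_const, nsmul_eq_mul,
        Nat.primesLE_card_eq_primeCounting, ← Chebyshev.theta_eq_sum_primesLE_log]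
      exact h2
    have hlin := linear (K := K) (C := C) (δ := δ) hl hy0 hl3 (by
        have := h5.trans_le (mul_le_mul_of_nonneg_right (min_le_right δ (1 / 4)) hl0.le)
        linarith) hK2 hC0.le
      (h5.le.trans (mul_le_mul_of_nonneg_right (min_le_left _ _) hl0.le))
      (h6.le.trans (mul_le_mul_of_nonneg_right (min_le_left _ _) hy0.le))
      (by
        rw [div_le_iff₀ hδ0] at hlδ
        linarith)
      (by
        have := h6.le.trans (mul_le_mul_of_nonneg_right (min_le_right δ 1) hy0.le)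
        linarith)
      hW1 hW2 hκL hκ1 hκ2 hLy hn1 hn2 hfail
    rw [hδε, ← hlam] at hlin
    refine hlin.trans ?_
    have h11 : ((symmDiff A B).card : ℝ) * lam -
        (((symmDiff A B).card : ℝ) * l - ∑ p ∈ symmDiff A B, Real.log p) =
        ∑ p ∈ symmDiff A B, (lam - (l - Real.log p)) := by
      have h14 := Finset.sum_sub_distrib (s := symmDiff A B) (fun _ : ℕ => lam)
        (fun p : ℕ => l - Real.log p)
      rw [Finset.sum_const, nsmul_eq_mul] at h14
      rw [hnl, h14]
    rw [h11]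
    exact Finset.sum_le_sum fun p _ => le_max_left _ _
  have hFpos : 0 < F.card := by omega
  have hdc := double_count hFP hFpos f (fun p => le_max_right _ _) hR
  have hsum : ∑ p ∈ P, f p ≤ (lam - 1 + Real.exp (-lam) + ε) * q := by
    refine le_trans (Finset.sum_le_sum_of_subset_of_nonneg (Finset.erase_subset _ _)
      fun p _ _ => le_max_right _ _) ?_
    exact h1
  have hphi' : lam - 1 + Real.exp (-lam) + ε = 2 * Real.log 2 - 3 / 4 - D + ε := by
    rw [hD]
    ring
  rw [hphi'] at hsum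
  set M : ℝ := (F.card : ℝ) with hM
  have hM1 : 1 ≤ M := by
    have : (1 : ℝ) ≤ m := by exact_mod_cast hm1
    linarith
  have h11 : (M - 1) * ((Real.log 2 - 3 / 8 - 2 * ε) * q) ≤
      M / 2 * ((2 * Real.log 2 - 3 / 4 - D + ε) * q) := by
    refine le_trans ?_ (hdc.trans (mul_le_mul_of_nonneg_left hsum (by linarith)))
    apply mul_le_mul_of_nonneg_left _ (by linarith)
    linarith
  have h12 : (M - 1) * (Real.log 2 - 3 / 8 - 2 * ε) ≤
      M / 2 * (2 * Real.log 2 - 3 / 4 - D + ε) := by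
    have h13 : ((M - 1) * (Real.log 2 - 3 / 8 - 2 * ε)) * q ≤
      (M / 2 * (2 * Real.log 2 - 3 / 4 - D + ε)) * q := by linarith
    exact le_of_mul_le_mul_right h13 hq0
  have h13 : 4 < M * D := by
    rw [div_le_iff₀ hD0] at hmD
    have h15 := mul_lt_mul_of_pos_right hFm' hD0
    linarith
  have h14 : M * (D / 4) ≤ 1 := by
    have h15 : M * ε ≤ M * (D / 10) := mul_le_mul_of_nonneg_left hεD (by linarith)
    have h16 : M * (D / 4) = (M / 2) * D - 5 / 2 * (M * (D / 10)) := by ring
    have h17 : (M - 1) * (Real.log 2 - 3 / 8 - 2 * ε) =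
      M * Real.log 2 - 3 / 8 * M - 2 * (M * ε) - (Real.log 2 - 3 / 8 - 2 * ε) := by ring
    have h18 : M / 2 * (2 * Real.log 2 - 3 / 4 - D + ε) =
      M * Real.log 2 - 3 / 8 * M - (M / 2) * D + 1 / 2 * (M * ε) := by ring
    rw [h17, h18] at h12
    linarith
  linarith

end Pool.Agent.T6.H82.HC
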